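import Pool.Agent.H8.PL.Targets

/-!
# The squares close, except at the first corner
-/

set_option autoImplicit false

namespace Pool.Agent.H1.PL

open Pool.Agent.H8.PL

theorem fourth {V : Type} (S : Set V) (h : S.ncard = 4) (a b c : V) (ha : a ∈ S) (hb : b ∈ S)
    (hc : c ∈ S) (hab : a ≠ b) (hac : a ≠ c) (hbc : b ≠ c) :
    ∃ d, [a, b, c, d].Nodup ∧ S = {a, b, c, d} := by
  have hfin : S.Finite := Set.finite_of_ncard_ne_zero (by omega)
  have hsub : ({a, b, c} : Set V) ⊆ S := by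
    intro t ht
    simp only [Set.mem_insert_iff, Set.mem_singleton_iff] at ht
    rcases ht with rfl | rfl | rfl <;> assumption
  have h3 : ({a, b, c} : Set V).ncard = 3 := by
    rw [Set.ncard_eq_three]
    exact ⟨a, b, c, hab, hac, hbc, rfl⟩
  have h1 : (S \ {a, b, c}).ncard = 1 := by
    rw [Set.ncard_sdiff hsub (Set.toFinite _), h, h3]
  obtain ⟨d, hd⟩ := Set.ncard_eq_one.1 h1
  have hdm : d ∈ S \ {a, b, c} := by rw [hd]; exact Set.mem_singleton _
  have hda := hdm.2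
  simp only [Set.mem_insert_iff, Set.mem_singleton_iff, not_or] at hda
  refine ⟨d, ?_, ?_⟩
  · simp only [List.nodup_cons, List.mem_cons, List.not_mem_nil, or_false, not_or,
      List.nodup_nil, and_true, not_false_eq_true]
    exact ⟨⟨hab, hac, fun e => hda.1 e.symm⟩, ⟨hbc, fun e => hda.2.1 e.symm⟩,
      fun e => hda.2.2 e.symm⟩
  · ext t
    constructor
    · intro ht
      by_cases h' : t ∈ ({a, b, c} : Set V)
      · simp only [Set.mem_insert_iff, Set.mem_singleton_iff] at h' ⊢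
        tauto
      · have : t ∈ S \ {a, b, c} := ⟨ht, h'⟩
        rw [hd] at this
        simp only [Set.mem_singleton_iff] at this
        simp [this]
    · intro ht
      simp only [Set.mem_insert_iff, Set.mem_singleton_iff] at ht
      rcases ht with rfl | rfl | rfl | rfl
      · exact ha
      · exact hb
      · exact hc
      · exact hdm.1

theorem z6a (a : ZMod 6) : a + 1 ≠ a := by revert a; decide

theorem z6b (a b : ZMod 6) (h : a = b + 1) : a + 1 ≠ b := by revert a b; decide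

/-- the common neighbours of the east and the north neighbour -/
theorem coord {x y z w : Lb} (h1 : Ea x y) (h2 : No x z)
    (h3 : Ea y w ∨ Ea w y ∨ No y w ∨ No w y) (h4 : Ea z w ∨ Ea w z ∨ No z w ∨ No w z) :
    (Ea w y ∧ No w z) ∨ (No y w ∧ Ea z w) := by
  obtain ⟨-, -, e1, e2, -⟩ := h1
  obtain ⟨-, -, e3, e4, -⟩ := h2
  have key : ∀ xi xj yi yj zi zj wi wj : ZMod 6, yi = xi + 1 → yj = xj → zi = xi → zj = xj + 1 →
      ((wi = yi + 1 ∧ wj = yj) ∨ (wj = yj - 1 ∧ wi = yi)) →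
      ((wi = zi + 1 ∧ wj = zj) ∨ (wi = zi - 1 ∧ wj = zj) ∨ (wi = zi ∧ wj = zj + 1) ∨
        (wi = zi ∧ wj = zj - 1)) → False := by
    intro xi xj yi yj zi zj wi wj a1 a2 a3 a4 a5 a6
    rw [a1, a2] at a5
    rw [a3, a4] at a6
    rcases a5 with ⟨b1, b2⟩ | ⟨b1, b2⟩ <;> rw [b1, b2] at a6 <;> clear a1 a2 a3 a4 b1 b2 <;>
      revert xi xj <;> decide
  have key2 : ∀ xi xj yi yj zi zj wi wj : ZMod 6, yi = xi + 1 → yj = xj → zi = xi → zj = xj + 1 →
      (wi = yi - 1 ∧ wj = yj) →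
      ((wi = zi + 1 ∧ wj = zj) ∨ (wi = zi - 1 ∧ wj = zj) ∨ (wi = zi ∧ wj = zj + 1)) → False := by
    intro xi xj yi yj zi zj wi wj a1 a2 a3 a4 a5 a6
    rw [a1, a2] at a5
    rw [a3, a4] at a6
    obtain ⟨b1, b2⟩ := a5
    rw [b1, b2] at a6
    clear a1 a2 a3 a4 b1 b2
    revert xi xj; decide
  have key3 : ∀ xi xj yi yj zi zj wi wj : ZMod 6, yi = xi + 1 → yj = xj → zi = xi → zj = xj + 1 →
      (wi = yi ∧ wj = yj + 1) →
      ((wi = zi ∧ wj = zj - 1) ∨ (wi = zi - 1 ∧ wj = zj) ∨ (wi = zi ∧ wj = zj + 1)) → False := by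
    intro xi xj yi yj zi zj wi wj a1 a2 a3 a4 a5 a6
    rw [a1, a2] at a5
    rw [a3, a4] at a6
    obtain ⟨b1, b2⟩ := a5
    rw [b1, b2] at a6
    clear a1 a2 a3 a4 b1 b2
    revert xi xj; decide
  have sb : ∀ a b : ZMod 6, a = b + 1 → b = a - 1 := by
    intro a b h; rw [h]; ring
  have r4 : (w.i = z.i + 1 ∧ w.j = z.j) ∨ (w.i = z.i - 1 ∧ w.j = z.j) ∨
      (w.i = z.i ∧ w.j = z.j + 1) ∨ (w.i = z.i ∧ w.j = z.j - 1) := by
    rcases h4 with h | h | h | h
    · exact Or.inl ⟨h.2.2.1, h.2.2.2.1⟩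
    · exact Or.inr (Or.inl ⟨sb _ _ h.2.2.1, h.2.2.2.1.symm⟩)
    · exact Or.inr (Or.inr (Or.inl ⟨h.2.2.1, h.2.2.2.1⟩))
    · exact Or.inr (Or.inr (Or.inr ⟨h.2.2.1.symm, sb _ _ h.2.2.2.1⟩))
  rcases h3 with h | h | h | h
  · exact (key _ _ _ _ _ _ _ _ e1 e2 e3 e4 (Or.inl ⟨h.2.2.1, h.2.2.2.1⟩) r4).elim
  · have hw : w.i = y.i - 1 ∧ w.j = y.j := ⟨sb _ _ h.2.2.1, h.2.2.2.1.symm⟩
    rcases h4 with g | g | g | g
    · exact (key2 _ _ _ _ _ _ _ _ e1 e2 e3 e4 hw (Or.inl ⟨g.2.2.1, g.2.2.2.1⟩)).elim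
    · exact (key2 _ _ _ _ _ _ _ _ e1 e2 e3 e4 hw
        (Or.inr (Or.inl ⟨sb _ _ g.2.2.1, g.2.2.2.1.symm⟩))).elim
    · exact (key2 _ _ _ _ _ _ _ _ e1 e2 e3 e4 hw
        (Or.inr (Or.inr ⟨g.2.2.1, g.2.2.2.1⟩))).elim
    · exact Or.inl ⟨h, g⟩
  · have hw : w.i = y.i ∧ w.j = y.j + 1 := ⟨h.2.2.1, h.2.2.2.1⟩
    rcases h4 with g | g | g | g
    · exact Or.inr ⟨h, g⟩
    · exact (key3 _ _ _ _ _ _ _ _ e1 e2 e3 e4 hw
        (Or.inr (Or.inl ⟨sb _ _ g.2.2.1, g.2.2.2.1.symm⟩))).elim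
    · exact (key3 _ _ _ _ _ _ _ _ e1 e2 e3 e4 hw
        (Or.inr (Or.inr ⟨g.2.2.1, g.2.2.2.1⟩))).elim
    · exact (key3 _ _ _ _ _ _ _ _ e1 e2 e3 e4 hw
        (Or.inl ⟨g.2.2.1.symm, sb _ _ g.2.2.2.1⟩)).elim
  · exact (key _ _ _ _ _ _ _ _ e1 e2 e3 e4 (Or.inr ⟨sb _ _ h.2.2.2.1, h.2.2.1.symm⟩) r4).elim

theorem stp_ne {a b : Fin 4} (h : stp a b) : a ≠ 3 ∧ b ≠ 0 := by
  rcases h with ⟨rfl, rfl⟩ | ⟨rfl, rfl⟩ | ⟨rfl, rfl⟩ | ⟨rfl, rfl⟩ <;> decide

theorem pf_c1 (hDG : Z_DG) (hFC : Z_FC) (hNB : Z_NB) (hOP : Z_OP) : Z_C1 := by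
  intro V _ G lb σ hLR hQ s x y z hx hxy hxz
  obtain ⟨hdeg, -, -⟩ := hDG V G lb hLR
  have hFC' := hFC V G σ hQ
  obtain ⟨hN1, hN2, hN3, hN4⟩ := hNB V G σ hQ.1
  obtain ⟨hO1, hO2, hO3, hO4, hO5, hO6⟩ := hOP V G lb σ hLR hQ
  obtain ⟨axy, ox, oy, exy⟩ := hxy
  obtain ⟨axz, -, oz, exz⟩ := hxz
  have hx3 := (stp_ne exy.1).1
  have hy0 := (stp_ne exy.1).2
  have hv3 := (stp_ne exz.2.1).1
  have hz0 := (stp_ne exz.2.1).2
  have hd4 : (G.neighborSet x).ncard = 4 := by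
    rw [hdeg x, if_neg]
    rintro ⟨h1, h2⟩
    exact hx ⟨h1.resolve_right hx3, h2.resolve_right hv3⟩
  have hyz : y ≠ z := by
    rintro rfl
    have h1 := exy.2.2.1
    have h2 := exz.2.2.1
    rw [h2] at h1
    exact z6a _ h1.symm
  -- consecutive at `x`
  have hcons : Cs G σ x y z ∨ Cs G σ x z y := by
    by_cases hh : (lb x).h = 0
    · have hv0 : (lb x).v ≠ 0 := fun h => hx ⟨hh, h⟩
      obtain ⟨b, hb, -⟩ := hLR.so s x ox hv0
      have hzb : z ≠ b := by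
        rintro rfl
        exact z6b _ _ hb.2.2.2.2.2.2.1 exz.2.2.2.1.symm
      have hby : b ≠ y := by
        rintro rfl
        have h1 := exy.2.2.1
        have h2 := hb.2.2.2.2.2.1
        rw [h2] at h1
        exact z6a _ h1.symm
      obtain ⟨d, hnd, hS⟩ := fourth (G.neighborSet x) hd4 z b y axz hb.1.symm axy hzb
        hyz.symm hby
      have ho := hO2 s x z b hb ⟨axz, ox, oz, exz⟩
      have := (hN4 x z b y d hnd hS ho.1 ho.2).1
      tauto
    · obtain ⟨b, hb, -⟩ := hLR.we s x ox hh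
      have hyb : y ≠ b := by
        rintro rfl
        exact z6b _ _ hb.2.2.2.2.2.1 exy.2.2.1.symm
      have hbz : b ≠ z := by
        rintro rfl
        have h1 := exz.2.2.2.1
        have h2 := hb.2.2.2.2.2.2.1
        rw [h2] at h1
        exact z6a _ h1.symm
      obtain ⟨d, hnd, hS⟩ := fourth (G.neighborSet x) hd4 y b z axy hb.1.symm axz hyb hyz hbz
      have ho := hO1 s x y b hb ⟨axy, ox, oy, exy⟩
      exact (hN4 x y b z d hnd hS ho.1 ho.2).1
  -- the fourth corner of the face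
  obtain ⟨w, c1, c2⟩ : ∃ w, (Cs G σ y x w ∨ Cs G σ y w x) ∧ (Cs G σ z x w ∨ Cs G σ z w x) := by
    rcases hcons with h | h
    · obtain ⟨w, h1, -, h3⟩ := hFC' x y z h
      exact ⟨w, Or.inr h3, Or.inl h1⟩
    · obtain ⟨w, h1, -, h3⟩ := hFC' x z y h
      exact ⟨w, Or.inl h1, Or.inr h3⟩
  have ayw : G.Adj y w := by
    rcases c1 with h | h
    · exact (hN1 _ _ _ h).2
    · exact (hN1 _ _ _ h).1
  have azw : G.Adj z w := by
    rcases c2 with h | h
    · exact (hN1 _ _ _ h).2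
    · exact (hN1 _ _ _ h).1
  have hwx : w ≠ x := by
    rintro rfl
    have hc : Cs G σ z w w := by rcases c2 with h | h <;> exact h
    have h1 : G.neighborSet z ⊆ {w} := fun t ht => hN2 z w hc t ht
    have h2 : (G.neighborSet z).ncard ≤ 1 := by
      have := Set.ncard_le_ncard h1 (Set.finite_singleton w)
      rwa [Set.ncard_singleton] at this
    have h3 := hdeg z
    split_ifs at h3 <;> omega
  rcases coord exy exz (hLR.adj y w ayw) (hLR.adj z w azw) with ⟨e1, e2⟩ | ⟨e1, e2⟩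
  · exfalso
    by_cases ow : ons s (lb w)
    · exact hwx ((hLR.we s y oy hy0).unique ⟨ayw.symm, ow, oy, e1⟩ ⟨axy, ox, oy, exy⟩)
    · have hw : mid (lb w) ∧ (lb w).f ≠ s := by
        unfold ons at ow
        push Not at ow
        exact ow
      obtain ⟨hwm, hwf⟩ := hw
      have hym : ¬ mid (lb y) := by
        intro hym
        exact hwf ((e1.2.2.2.2 hwm hym).symm.trans (oy hym))
      have oy' : ons (!s) (lb y) := fun h => (hym h).elim
      have ow' : ons (!s) (lb w) := by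
        intro _
        cases s <;> cases hf : (lb w).f <;> simp_all
      have hEw : Er G lb (!s) w y := ⟨ayw.symm, ow', oy', e1⟩
      have hEx : Er G lb s x y := ⟨axy, ox, oy, exy⟩
      cases s with
      | true =>
        have := hO4 y x w hEx hEw hwx.symm
        rcases c1 with h | h
        · exact this.1 h
        · exact this.2 h
      | false =>
        have := hO4 y w x hEw hEx hwx
        rcases c1 with h | h
        · exact this.2 h
        · exact this.1 h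
  · by_cases ow : ons s (lb w)
    · exact ⟨w, ⟨azw, oz, ow, e2⟩, ⟨ayw, oy, ow, e1⟩⟩
    · exfalso
      have hw : mid (lb w) ∧ (lb w).f ≠ s := by
        unfold ons at ow
        push Not at ow
        exact ow
      obtain ⟨hwm, hwf⟩ := hw
      have hym : ¬ mid (lb y) := by
        intro hym
        exact hwf ((e1.2.2.2.2 hym hwm).trans (oy hym))
      have hzm : ¬ mid (lb z) := by
        intro hzm
        exact hwf ((e2.2.2.2.2 hzm hwm).trans (oz hzm))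
      have g1 : (lb y).v = 0 := by
        have a1 : (lb y).h = 1 ∨ (lb y).h = 2 := by rw [← e1.1]; exact hwm.1
        have a2 := e1.2.1
        have a3 : ¬ ((lb y).v = 1 ∨ (lb y).v = 2) := fun h => hym ⟨a1, h⟩
        rcases a2 with ⟨b, -⟩ | ⟨b, -⟩ | ⟨b, -⟩ | ⟨b, -⟩
        · exact b
        · exact (a3 (Or.inl b)).elim
        · exact (a3 (Or.inr b)).elim
        · exact (a3 (Or.inr b)).elim
      have g2 : (lb z).h = 0 := by
        have a1 : (lb z).v = 1 ∨ (lb z).v = 2 := by rw [← e2.2.1]; exact hwm.2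
        have a2 := e2.1
        have a3 : ¬ ((lb z).h = 1 ∨ (lb z).h = 2) := fun h => hzm ⟨h, a1⟩
        rcases a2 with ⟨b, -⟩ | ⟨b, -⟩ | ⟨b, -⟩ | ⟨b, -⟩
        · exact b
        · exact (a3 (Or.inl b)).elim
        · exact (a3 (Or.inr b)).elim
        · exact (a3 (Or.inr b)).elim
      exact hx ⟨exz.1.symm.trans g2, exy.2.1.symm.trans g1⟩

end Pool.Agent.H1.PL
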