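import Pool.Agent.H8.PL.Targets

/-!
# From rows of cells to tilings of squares
-/

set_option autoImplicit false

namespace Pool.Agent.H1.PL

open Pool.Agent.H8.PL Pool.Agent.H16.TO

/-- the tile at `(x, y)` -/
def tt {r : ℕ} {T : Type} (cl : ℕ → Cell r T) (s : ℕ → ℕ) (x y : ℕ) : Ql r T :=
  (cl x, if y ≤ x then some (cl (x - y)) else none, if y < x then some (cl (x - 1 - y)) else none,
    fun j => decide (y < s j))

theorem mk_tt {r : ℕ} {T : Type} (cl : ℕ → Cell r T) (s : ℕ → ℕ) (x y j : ℕ) (hj : j < r) :
    mk (tt cl s x y) j = decide (y < s j) := by
  simp [mk, tt, hj]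

theorem pf_sb : Z_SB := by
  intro r T G H K cl s hK hS
  obtain ⟨hF, hL, hG, hst, h0, h1, hlk⟩ := hS
  refine ⟨tt cl s, ?_, ?_, ?_⟩
  · intro x hx y hy
    refine ⟨hG x hx, ?_, ?_, ?_, ?_⟩
    · intro hz
      have : x = 0 := by simpa using hz
      subst this
      exact ⟨hF, by simp [tt]⟩
    · intro hl
      have hxK : x + 1 = K := by simpa using hl
      have hx1 : x = K - 1 := by omega
      refine ⟨?_, ?_, ?_⟩
      · show CellLast (cl x)
        rw [hx1]; exact hL
      · intro j hj hm d hd
        rw [mk_tt cl s x y j hj] at hm
        have hm' : y < s j := by simpa using hm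
        have hd' : (if y ≤ x then some (cl (x - y)) else none) = some d := hd
        have hyx : y ≤ x := by omega
        rw [if_pos hyx] at hd'
        have hd2 : cl (x - y) = d := by simpa using hd'
        rw [← hd2]
        have := (h0 j hj).1
        exact (h1 j hj (x - y) (by omega)).2 (by omega)
      · have e1 : (tt cl s x y).2.1 = if y ≤ x then some (cl (x - y)) else none := rfl
        have e2 : (tt cl s x y).2.2.1 = if y < x then some (cl (x - 1 - y)) else none := rfl
        rw [e1, e2]
        by_cases hyx : y < x
        · simp [hyx, hyx.le]
          omega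
        · have : y = x := by omega
          subst this
          simp [hxK]
    · intro hb
      have : y = 0 := by simpa using hb
      subst this
      simp [tt]
    · intro hn1 hn2 j hj
      have e1 : (tt cl s x y).2.1 = if y ≤ x then some (cl (x - y)) else none := rfl
      have e2 : (tt cl s x y).2.2.1 = if y < x then some (cl (x - 1 - y)) else none := rfl
      rw [e1] at hn1
      rw [e2] at hn2
      have hyx : y = x := by
        by_contra hne
        rcases Nat.lt_or_gt_of_ne hne with h | h
        · simp [h] at hn2
        · simp [Nat.not_le.2 h] at hn1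
      rw [mk_tt cl s x y j hj]
      have := (h0 j hj).2 x hx
      rw [hyx]
      show decide (x < s j) = true ↔ fl (cl x) 0 j = true
      rw [this]
      simp
  · intro x y hx hy
    refine ⟨hst x hx, ?_, rfl⟩
    show (if y < x + 1 then some (cl (x + 1 - 1 - y)) else none) =
      if y ≤ x then some (cl (x - y)) else none
    simp [Nat.lt_succ_iff]
  · intro x y hx hy
    refine ⟨rfl, ?_, ?_⟩
    · show (if y + 1 ≤ x then some (cl (x - (y + 1))) else none) =
        if y < x then some (cl (x - 1 - y)) else none
      have : x - (y + 1) = x - 1 - y := by omega
      rw [this]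
      rfl
    · intro j hj hm hm' d hd
      rw [mk_tt cl s x y j hj] at hm
      rw [mk_tt cl s x (y + 1) j hj] at hm'
      have hm1 : y < s j := by simpa using hm
      have hm2 : ¬ y + 1 < s j := by simpa using hm'
      have hsj : s j = y + 1 := by omega
      have hd' : (if y + 1 ≤ x then some (cl (x - (y + 1))) else none) = some d := hd
      by_cases hyx : y + 1 ≤ x
      · rw [if_pos hyx] at hd'
        have hd2 : cl (x - (y + 1)) = d := by simpa using hd'
        subst hd2
        constructor
        · have := hlk j hj (x - (y + 1)) (by omega)
          have e : x - (y + 1) + s j = x := by omega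
          rw [e] at this
          exact this
        · have h2 := h1 j hj (x - (y + 1)) (by omega)
          have hs := (h0 j hj).1
          cases hfl : fl (cl (x - (y + 1))) 1 j with
          | false => rfl
          | true =>
            have := h2.1 hfl
            omega
      · rw [if_neg hyx] at hd'
        cases hd'

end Pool.Agent.H1.PL
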